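import Pool.Agent.H75R4.Gab.Stmts

/-! # TaskHad of the project H75-GABOR (MP_7f688b_an) -/

set_option autoImplicit false

namespace Pool.Agent.H700R3.Gab

open Pool.Agent.H75R4.Gab Complex

/-- 72 times the inner product -/
def nn (k l j : Fin 7) : ℤ :=
  YZ j 0 * (BZ k 0 - BZ l 0) + YZ j 1 * (BZ k 1 - BZ l 1) + YZ j 2 * (BZ k 2 - BZ l 2) +
    YZ j 3 * (BZ k 3 - BZ l 3) + YZ j 4 * (BZ k 4 - BZ l 4)

/-- exponents of the root of unity of order 36 -/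
def ex (k l j : Fin 7) : ℕ := (nn k l j / 2 % 36).toNat

theorem nn_even : ∀ k l j : Fin 7, nn k l j = 2 * (nn k l j / 2) := by decide

def pp (a : ℕ) : ℤ := if a = 0 ∨ a = 5 then 1 else if a = 2 ∨ a = 3 then -1 else 0
def qq (a : ℕ) : ℤ := if a = 1 ∨ a = 2 then 1 else if a = 4 ∨ a = 5 then -1 else 0

theorem pow_w (w : ℂ) (hw : w ^ 2 = w - 1) (a : ℕ) (ha : a < 6) :
    w ^ a = (pp a : ℂ) + (qq a : ℂ) * w := by
  interval_cases a
  · simp [pp, qq]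
  · simp [pp, qq]
  · simp [pp, qq]
    linear_combination hw
  · simp [pp, qq]
    linear_combination (w + 1) * hw
  · simp [pp, qq]
    linear_combination (w ^ 2 + w) * hw
  · simp [pp, qq]
    linear_combination (w ^ 3 + w ^ 2 - 1) * hw

/-- coefficients -/
def P (e b : ℕ) : ℤ := if e % 6 = b then pp (e / 6) else 0
def Q (e b : ℕ) : ℤ := if e % 6 = b then qq (e / 6) else 0

theorem pow_z (z : ℂ) (hz : z ^ 12 = z ^ 6 - 1) (e : ℕ) (he : e < 36) :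
    z ^ e = ∑ b ∈ Finset.range 6, ((P e b : ℂ) + (Q e b : ℂ) * z ^ 6) * z ^ b := by
  have h1 : z ^ e = (z ^ 6) ^ (e / 6) * z ^ (e % 6) := by
    rw [← pow_mul, ← pow_add]
    congr 1
    omega
  have hw : (z ^ 6) ^ 2 = z ^ 6 - 1 := by
    rw [← pow_mul]
    exact hz
  rw [h1, pow_w _ hw _ (by omega), Finset.sum_eq_single (e % 6)]
  · simp [P, Q]
  · intro b _ hb
    have : ¬ (e % 6 = b) := fun h => hb h.symm
    simp [P, Q, this]
  · intro h
    exact absurd (Finset.mem_range.2 (Nat.mod_lt _ (by norm_num))) h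

theorem vanish_P : ∀ k l : Fin 7, k ≠ l → ∀ b : Fin 6,
    P (ex k l 0) b + P (ex k l 1) b + P (ex k l 2) b + P (ex k l 3) b + P (ex k l 4) b +
      P (ex k l 5) b + P (ex k l 6) b = 0 := by decide

theorem vanish_Q : ∀ k l : Fin 7, k ≠ l → ∀ b : Fin 6,
    Q (ex k l 0) b + Q (ex k l 1) b + Q (ex k l 2) b + Q (ex k l 3) b + Q (ex k l 4) b +
      Q (ex k l 5) b + Q (ex k l 6) b = 0 := by decide

noncomputable def ze : ℂ := exp (2 * (Real.pi : ℂ) * I / 36)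

theorem ze_36 : ze ^ 36 = 1 := by
  unfold ze
  rw [← exp_nat_mul]
  have : ((36 : ℕ) : ℂ) * (2 * (Real.pi : ℂ) * I / 36) = 2 * (Real.pi : ℂ) * I := by
    push_cast
    ring
  rw [this, exp_two_pi_mul_I]

theorem ze_12 : ze ^ 12 = ze ^ 6 - 1 := by
  have h6 : ze ^ 6 = exp (((Real.pi / 3 : ℝ) : ℂ) * I) := by
    unfold ze
    rw [← exp_nat_mul]
    congr 1
    push_cast
    ring
  have h12 : ze ^ 12 = (ze ^ 6) ^ 2 := by rw [← pow_mul]
  rw [h12, h6, exp_mul_I, ← ofReal_cos, ← ofReal_sin, Real.cos_pi_div_three,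
    Real.sin_pi_div_three]
  have h3 : ((√3 : ℝ) : ℂ) ^ 2 = 3 := by
    rw [← ofReal_pow, Real.sq_sqrt (by norm_num)]
    norm_num
  push_cast
  have hI : I ^ 2 = -1 := I_sq
  linear_combination (1 / 4 : ℂ) * I ^ 2 * h3 + (3 / 4 : ℂ) * hI

theorem inner_eq (k l j : Fin 7) :
    (inner ℝ (iv (YZ j)) (bv k - bv l) : ℝ) = (nn k l j : ℝ) / 72 := by
  unfold nn iv bv
  simp only [PiLp.inner_apply, Fin.sum_univ_five, PiLp.sub_apply, RCLike.inner_apply, conj_trivial]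
  push_cast
  ring

theorem exp_eq (k l j : Fin 7) :
    exp (2 * (Real.pi : ℂ) * I * ((inner ℝ (iv (YZ j)) (bv k - bv l) : ℝ) : ℂ)) =
      ze ^ (ex k l j) := by
  rw [inner_eq]
  have h1 : (nn k l j : ℤ) = 2 * (36 * (nn k l j / 2 / 36) + (ex k l j : ℤ)) := by
    have h2 := nn_even k l j
    have h3 : ((ex k l j : ℕ) : ℤ) = nn k l j / 2 % 36 :=
      Int.toNat_of_nonneg (Int.emod_nonneg _ (by norm_num))
    rw [h3]
    omega
  have h4 : ((nn k l j : ℤ) : ℂ) = 2 * (36 * ((nn k l j / 2 / 36 : ℤ) : ℂ) + (ex k l j : ℂ)) := by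
    exact_mod_cast congrArg (fun t : ℤ => (t : ℂ)) h1
  have h5 : 2 * (Real.pi : ℂ) * I * (((nn k l j : ℝ) / 72 : ℝ) : ℂ) =
      ((nn k l j / 2 / 36 : ℤ) : ℂ) * (2 * (Real.pi : ℂ) * I) +
        (ex k l j : ℂ) * (2 * (Real.pi : ℂ) * I / 36) := by
    push_cast
    rw [h4]
    ring
  rw [h5, exp_add, exp_int_mul_two_pi_mul_I, one_mul, exp_nat_mul]
  rfl

theorem taskHad : TaskHad := by
  intro k l hkl
  unfold W
  have h1 : ∀ j, exp (2 * (Real.pi : ℂ) * I * ((inner ℝ (iv (YZ j)) (bv k - bv l) : ℝ) : ℂ)) =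
      ∑ b ∈ Finset.range 6, ((P (ex k l j) b : ℂ) + (Q (ex k l j) b : ℂ) * ze ^ 6) * ze ^ b := by
    intro j
    rw [exp_eq, pow_z ze ze_12]
    unfold ex
    have h2 : nn k l j / 2 % 36 < 36 := Int.emod_lt_of_pos _ (by norm_num)
    have h3 : 0 ≤ nn k l j / 2 % 36 := Int.emod_nonneg _ (by norm_num)
    omega
  simp only [h1]
  rw [Finset.sum_comm]
  refine Finset.sum_eq_zero fun b hb => ?_
  rw [← Finset.sum_mul]
  have hb6 : b < 6 := Finset.mem_range.1 hb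
  have e1 := vanish_P k l hkl ⟨b, hb6⟩
  have e2 := vanish_Q k l hkl ⟨b, hb6⟩
  have e3 : ((P (ex k l 0) b : ℤ) : ℂ) + P (ex k l 1) b + P (ex k l 2) b + P (ex k l 3) b +
      P (ex k l 4) b + P (ex k l 5) b + P (ex k l 6) b = 0 := by exact_mod_cast e1
  have e4 : ((Q (ex k l 0) b : ℤ) : ℂ) + Q (ex k l 1) b + Q (ex k l 2) b + Q (ex k l 3) b +
      Q (ex k l 4) b + Q (ex k l 5) b + Q (ex k l 6) b = 0 := by exact_mod_cast e2
  have e5 : ∑ j : Fin 7, ((P (ex k l j) b : ℂ) + (Q (ex k l j) b : ℂ) * ze ^ 6) = 0 := by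
    rw [Fin.sum_univ_seven]
    linear_combination e3 + ze ^ 6 * e4
  rw [e5, zero_mul]

end Pool.Agent.H700R3.Gab
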