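import Pool.Agent.H75R4.Gab.Stmts

/-! # TaskVol of the project H75-GABOR (MP_7f688b_an) -/

set_option autoImplicit false

namespace Pool.Agent.H700R3.Gab

open Pool.Agent.H75R4.Gab MeasureTheory
open scoped ENNReal

theorem encard_eq (S : Set (V × V)) (n : Fin 5 → ℤ) (x : V) :
    ((Mset S x n).encard : ℝ≥0∞) = ∑' s : {s : V × V // s ∈ S ∧ s.2 ∈ cube (iv n)},
      ({y : V | y - s.1.1 ∈ E}).indicator (fun _ => (1 : ℝ≥0∞)) x := by
  let T := {s : V × V // s ∈ S ∧ s.2 ∈ cube (iv n)}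
  have h1 : Mset S x n = Subtype.val '' {t : T | x - t.1.1 ∈ E} := by
    ext s
    constructor
    · rintro ⟨hs, hx, hc⟩
      exact ⟨⟨s, hs, hc⟩, hx, rfl⟩
    · rintro ⟨t, ht, rfl⟩
      exact ⟨t.2.1, ht, t.2.2⟩
  rw [h1, Subtype.val_injective.encard_image, ← ENNReal.tsum_set_one,
    tsum_subtype {t : T | x - t.1.1 ∈ E} (fun _ => (1 : ℝ≥0∞))]
  refine tsum_congr fun t => ?_
  by_cases ht : x - t.1.1 ∈ E
  · rw [Set.indicator_of_mem (show t ∈ {t : T | x - t.1.1 ∈ E} from ht),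
      Set.indicator_of_mem (show x ∈ {y : V | y - t.1.1 ∈ E} from ht)]
  · rw [Set.indicator_of_notMem (show t ∉ {t : T | x - t.1.1 ∈ E} from ht),
      Set.indicator_of_notMem (show x ∉ {y : V | y - t.1.1 ∈ E} from ht)]

theorem taskVol : TaskVol := by
  intro hE S hS n
  have hc : Countable {s : V × V // s ∈ S ∧ s.2 ∈ cube (iv n)} :=
    (hS.mono fun s hs => hs.1 : {s : V × V | s ∈ S ∧ s.2 ∈ cube (iv n)}.Countable).to_subtype
  have hA : ∀ a : V, MeasurableSet {y : V | y - a ∈ E} := fun a =>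
    (measurable_id.sub_const a) hE
  have hm : ∀ s : {s : V × V // s ∈ S ∧ s.2 ∈ cube (iv n)},
      Measurable (({y : V | y - s.1.1 ∈ E}).indicator (fun _ => (1 : ℝ≥0∞))) := fun s =>
    measurable_const.indicator (hA s.1.1)
  simp only [encard_eq]
  refine ⟨Measurable.ennreal_tsum hm, fun x₀ => ?_⟩
  rw [lintegral_tsum fun s => (hm s).aemeasurable]
  refine tsum_congr fun s => ?_
  rw [lintegral_indicator (hA s.1.1), setLIntegral_const, one_mul,
    Measure.restrict_apply (hA s.1.1), Set.inter_comm]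

end Pool.Agent.H700R3.Gab
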